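import Pool.Agent.Q91.PT.Stm

/-!
# Project PT, job DFP: all differences of the number of polygons
-/

set_option autoImplicit false

namespace Pool.Agent.Q170.PT.DFP

open Finset Pool.Agent.H976R2 Pool.Agent.H976R2.Lip Pool.Agent.H739K Pool.Agent.H924P
open Pool.Agent.Q91.PT
open scoped Classical

/-- the words of polygons with dimensions in `B`, few flippable corners and area `a` -/
noncomputable def RB (n : ℕ) (B : Set (ℕ × ℕ)) (κ : ℝ) (a : ℤ) : ℝ :=
  (((KP n).filter (fun w => dims w ∈ B ∧ ((Fl w).card : ℝ) < κ ∧ (ar w : ℤ) = a)).card : ℝ)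

theorem NB_eq (n : ℕ) (B : Set (ℕ × ℕ)) (κ : ℝ) (a : ℤ) :
    NB n B a = NA (XB n B κ) (fun w => (ar w : ℤ)) a + RB n B κ a := by
  unfold NB NA RB XB
  rw [filter_filter, ← Nat.cast_add, Nat.cast_inj]
  rw [← card_filter_add_card_filter_not (s := (KP n).filter (fun w => dims w ∈ B ∧ (ar w : ℤ) = a))
    (fun w => κ ≤ ((Fl w).card : ℝ))]
  rw [filter_filter, filter_filter]
  congr 1
  · congr 1
    apply filter_congr
    intro w _
    tauto
  · congr 1
    apply filter_congr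
    intro w _
    rw [not_le]
    tauto

theorem dk_add (k : ℕ) (f g : ℤ → ℝ) (a : ℤ) :
    dk k (fun x => f x + g x) a = dk k f a + dk k g a := by
  unfold dk
  rw [← sum_add_distrib]
  refine sum_congr rfl fun j _ => ?_
  ring

theorem sum_RB (n : ℕ) (B : Set (ℕ × ℕ)) (κ : ℝ) (S : Finset ℤ) :
    ∑ a ∈ S, RB n B κ a ≤ (((KP n).filter (fun w => ((Fl w).card : ℝ) < κ)).card : ℝ) := by
  unfold RB
  rw [← Nat.cast_sum, Nat.cast_le]
  rw [← card_biUnion]
  · apply card_le_card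
    intro w hw
    rw [mem_biUnion] at hw
    obtain ⟨a, _, hw⟩ := hw
    rw [mem_filter] at hw ⊢
    exact ⟨hw.1, hw.2.2.1⟩
  · intro a _ b _ hab
    rw [Function.onFun, disjoint_left]
    intro w hw hw'
    rw [mem_filter] at hw hw'
    exact hab (hw.2.2.2.symm.trans hw'.2.2.2)

theorem dk_RB (k n : ℕ) (B : Set (ℕ × ℕ)) (κ : ℝ) (S : Finset ℤ) :
    ∑ a ∈ S, |dk k (RB n B κ) a| ≤
      2 ^ k * (((KP n).filter (fun w => ((Fl w).card : ℝ) < κ)).card : ℝ) := by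
  set M : ℝ := (((KP n).filter (fun w => ((Fl w).card : ℝ) < κ)).card : ℝ) with hM
  have h1 : ∀ a ∈ S, |dk k (RB n B κ) a| ≤ ∑ j ∈ range (k + 1), (k.choose j : ℝ) * RB n B κ (a + j) := by
    intro a _
    unfold dk
    refine (abs_sum_le_sum_abs _ _).trans (sum_le_sum fun j _ => ?_)
    rw [abs_mul, abs_mul, abs_pow, abs_neg, abs_one, one_pow, one_mul, Nat.abs_cast]
    have h2 : |RB n B κ (a + j)| = RB n B κ (a + j) := by
      unfold RB
      exact Nat.abs_cast _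
    rw [h2]
  have h2 : ∀ j ∈ range (k + 1), ∑ a ∈ S, (k.choose j : ℝ) * RB n B κ (a + j) ≤ (k.choose j : ℝ) * M := by
    intro j _
    rw [← mul_sum]
    refine mul_le_mul_of_nonneg_left ?_ (Nat.cast_nonneg _)
    have h3 : ∑ a ∈ S, RB n B κ (a + j) = ∑ a ∈ S.map (addRightEmbedding (j : ℤ)), RB n B κ a := by
      rw [sum_map]
      rfl
    rw [h3]
    exact sum_RB n B κ _
  calc ∑ a ∈ S, |dk k (RB n B κ) a|
      ≤ ∑ a ∈ S, ∑ j ∈ range (k + 1), (k.choose j : ℝ) * RB n B κ (a + j) := sum_le_sum h1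
    _ = ∑ j ∈ range (k + 1), ∑ a ∈ S, (k.choose j : ℝ) * RB n B κ (a + j) := sum_comm
    _ ≤ ∑ j ∈ range (k + 1), (k.choose j : ℝ) * M := sum_le_sum h2
    _ = 2 ^ k * M := by
      rw [← sum_mul]
      congr 1
      exact_mod_cast Nat.sum_range_choose k

theorem exp_le (k : ℕ) {δ : ℝ} (hδ : 0 < δ) {n : ℕ} (hn : 1 ≤ n) :
    Real.exp (-δ * n) ≤ (k.factorial : ℝ) / δ ^ k * (n : ℝ) ^ (-(k : ℝ) / 2) := by
  have hn' : (1 : ℝ) ≤ n := by exact_mod_cast hn
  have hn0 : (0 : ℝ) < n := by linarith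
  have h1 := Real.pow_div_factorial_le_exp (δ * n) (by positivity) k
  have h2 : (0 : ℝ) < k.factorial := by exact_mod_cast Nat.factorial_pos k
  have h3 : (n : ℝ) ^ (-(k : ℝ)) ≤ (n : ℝ) ^ (-(k : ℝ) / 2) := by
    apply Real.rpow_le_rpow_of_exponent_le hn'
    have : (0 : ℝ) ≤ k := Nat.cast_nonneg k
    linarith
  have h4 : (n : ℝ) ^ (-(k : ℝ)) = ((n : ℝ) ^ k)⁻¹ := by
    rw [Real.rpow_neg hn0.le, Real.rpow_natCast]
  have h5 : Real.exp (-δ * n) = (Real.exp (δ * n))⁻¹ := by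
    rw [← Real.exp_neg]
    congr 1
    ring
  have h6 : (Real.exp (δ * n))⁻¹ ≤ ((δ * n) ^ k / (k.factorial : ℝ))⁻¹ := by
    apply inv_anti₀ _ h1
    positivity
  calc Real.exp (-δ * n) ≤ ((δ * n) ^ k / (k.factorial : ℝ))⁻¹ := by rw [h5]; exact h6
    _ = (k.factorial : ℝ) / δ ^ k * (n : ℝ) ^ (-(k : ℝ)) := by
      rw [h4, mul_pow, inv_div]
      field_simp
    _ ≤ _ := mul_le_mul_of_nonneg_left h3 (by positivity)

theorem t (hD : S_dif) (hF : S_flp) (hW : S_few) : S_dfp := by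
  intro k
  obtain ⟨C, hC, hD⟩ := hD k
  obtain ⟨ε, δ, C', hε, hδ, hC', hW⟩ := hW
  refine ⟨C * ε ^ (-(k : ℝ) / 2) + 2 ^ k * C' * ((k.factorial : ℝ) / δ ^ k), by positivity, ?_⟩
  intro n hn hodd B S
  have hn0 : (0 : ℝ) < n := by
    have : 0 < n := by omega
    exact_mod_cast this
  set M : ℝ := ((KP n).card : ℝ) with hM
  have hM0 : 0 ≤ M := Nat.cast_nonneg _
  set r : ℝ := (n : ℝ) ^ (-(k : ℝ) / 2) with hr
  have hr0 : 0 ≤ r := Real.rpow_nonneg hn0.le _
  have h1 : ∑ a ∈ S, |dk k (NA (XB n B (ε * n)) (fun w => (ar w : ℤ))) a| ≤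
      C * ε ^ (-(k : ℝ) / 2) * M * r := by
    refine (hD _ (XB n B (ε * n)) Fl sw (fun w k => ins' w (cl w k)) (fun w => (ar w : ℤ))
      (hF n B (ε * n) hn).1 (ε * n) (by positivity) ?_ S).trans ?_
    · intro w hw
      unfold XB at hw
      rw [mem_filter] at hw
      exact hw.2.2
    · rw [Real.mul_rpow hε.le hn0.le]
      have h2 : ((XB n B (ε * n)).card : ℝ) ≤ M := by
        rw [hM, Nat.cast_le]
        exact card_le_card (filter_subset _ _)
      have h3 : 0 ≤ ε ^ (-(k : ℝ) / 2) := Real.rpow_nonneg hε.le _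
      calc C * ((XB n B (ε * n)).card : ℝ) * (ε ^ (-(k : ℝ) / 2) * r)
          ≤ C * M * (ε ^ (-(k : ℝ) / 2) * r) := by gcongr
        _ = C * ε ^ (-(k : ℝ) / 2) * M * r := by ring
  have h2 : ∑ a ∈ S, |dk k (RB n B (ε * n)) a| ≤
      2 ^ k * C' * ((k.factorial : ℝ) / δ ^ k) * M * r := by
    refine (dk_RB k n B (ε * n) S).trans ?_
    have h3 := (hW n hn hodd).2
    have h4 := exp_le k hδ (show 1 ≤ n by omega)
    calc 2 ^ k * (((KP n).filter (fun w => ((Fl w).card : ℝ) < ε * n)).card : ℝ)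
        ≤ 2 ^ k * (C' * Real.exp (-δ * n) * M) := by gcongr
      _ ≤ 2 ^ k * (C' * ((k.factorial : ℝ) / δ ^ k * r) * M) := by gcongr
      _ = _ := by ring
  calc ∑ a ∈ S, |dk k (NB n B) a|
      ≤ ∑ a ∈ S, (|dk k (NA (XB n B (ε * n)) (fun w => (ar w : ℤ))) a| +
          |dk k (RB n B (ε * n)) a|) := by
        refine sum_le_sum fun a _ => ?_
        have h3 : NB n B = fun a => NA (XB n B (ε * n)) (fun w => (ar w : ℤ)) a + RB n B (ε * n) a := by
          funext a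
          exact NB_eq n B (ε * n) a
        rw [h3, dk_add]
        exact abs_add_le _ _
    _ ≤ C * ε ^ (-(k : ℝ) / 2) * M * r + 2 ^ k * C' * ((k.factorial : ℝ) / δ ^ k) * M * r := by
        rw [sum_add_distrib]
        exact add_le_add h1 h2
    _ = _ := by ring

end Pool.Agent.Q170.PT.DFP
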