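import Pool.Agent.Q91.PT.Stm

/-!
# Project PT, job FLP: the polygons with many flippable corners form a system of flips
-/

set_option autoImplicit false

namespace Pool.Agent.Q170.PT.FLP

open Finset Pool.Agent.H976R2 Pool.Agent.H976R2.Lip Pool.Agent.H739K Pool.Agent.H924P
open Pool.Agent.Q91.PT
open scoped Classical

theorem mem_XB {n : ℕ} {B : Set (ℕ × ℕ)} {κ : ℝ} {w : List Dir} : w ∈ XB n B κ ↔
    ((w.length = n ∧ Saw w) ∧ sq w = 1) ∧ dims w ∈ B ∧ κ ≤ ((Fl w).card : ℝ) := by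
  unfold XB KP
  rw [mem_filter, mem_filter, mem_SW]

theorem t (hA : S_fla) (hB : S_flb) (hC : S_flc) (hD : S_fld) : S_flp := by
  intro n B κ hn
  refine ⟨?_, ?_⟩
  · intro w hw k hk
    rw [mem_XB] at hw
    obtain ⟨⟨⟨hl, hs⟩, hsq⟩, hd, hκ⟩ := hw
    obtain ⟨a1, a2, -, -, -, a6, -⟩ := hA w k hs hk
    obtain ⟨b1, b2⟩ := hB w k hs hk
    obtain ⟨c1, c2, c3, c4⟩ := hC w k (by omega) hs hsq hk
    have d := hD w k hs hk
    refine ⟨?_, b1, a6, ?_, ?_, c4⟩
    · rw [mem_XB]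
      exact ⟨⟨⟨a1.trans hl, a2⟩, c1⟩, by rw [d]; exact hd, by rw [b1]; exact hκ⟩
    · intro k' hk' hne
      obtain ⟨e1, e2⟩ := b2 k' hk'
      show ins' (sw w k) (cl (sw w k) k') ↔ ins' w (cl w k')
      rw [e1]
      exact c2 _ (e2 hne)
    · show ins' (sw w k) (cl (sw w k) k) ↔ ¬ ins' w (cl w k)
      rw [(b2 k hk).1]
      exact c3
  · intro w hw
    rw [mem_XB] at hw
    have h1 : (Fl w).card ≤ (range w.length).card := card_le_card (filter_subset _ _)
    rw [card_range, hw.1.1.1] at h1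
    exact h1

end Pool.Agent.Q170.PT.FLP
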